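import Pool.Agent.FHQ.StmtsG

/-!
# Squad FHQ, row FH1 (helper69): the fractional Helly property in one variable
-/

open scoped BigOperators

noncomputable section

namespace Pool.Agent.FHQ.H69

open Pool.Agent.FHQ

theorem fh1_append {n : ℕ} {K : Type} (x : Fin 1 → K) (b : Fin n → K) :
    (fun i : Fin (1 + n) => (Fin.cons (x 0) b : Fin (n + 1) → K) (Fin.cast (Nat.add_comm 1 n) i)) =
      Fin.append x b := by
  rw [Fin.append_left_eq_cons]
  rfl

theorem fh1 (hTam : TamStmt) (hBip : BipStmt) (hLdc : LdcStmt) : Fh1Stmt := by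
  classical
  intro n S hS α hα
  let S' : Fam (n + 1) := fun p K _ A x => S p K A (fun i => x (Fin.cast (Nat.add_comm 1 n) i))
  have hS' : LD (n + 1) S' := hLdc.1 (1 + n) (n + 1) S hS (Fin.cast (Nat.add_comm 1 n))
  obtain ⟨M, m, p0, hm, hT⟩ := hTam n S' hS'
  let C : ℕ := 4 * (1 + M * (M + 2 * m) + M * M + m * m)
  have hC : 0 < C := by show 0 < 4 * (1 + M * (M + 2 * m) + M * M + m * m); positivity
  have hCR : (0 : ℝ) < (C : ℝ) := by exact_mod_cast hC
  have hMR : (0 : ℝ) < (M : ℝ) * (M : ℝ) + 1 := by positivity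
  refine ⟨α / (((M : ℝ) * (M : ℝ) + 1) * (C : ℝ)), div_pos hα (mul_pos hMR hCR), p0, ?_⟩
  intro p _ K _ A hp N b hcon
  rcases Nat.eq_zero_or_pos N with hN | hN
  · subst hN
    exact ⟨fun _ => 0, by simp⟩
  choose P hPt hPu using fun i : Fin N => hT p K A hp (b i)
  -- the consistent pairs
  have hmem : ∀ (i : Fin N) (x : Fin 1 → K), S p K A (Fin.append x (b i)) ↔
      ∃ j : Fin M, x 0 ∈ (P i j).set A := by
    intro i x
    have h1 : x 0 ∈ {x : K | S' p K A (Fin.cons x (b i))} ↔ ∃ j : Fin M, x 0 ∈ (P i j).set A := by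
      rw [hPu i, Set.mem_iUnion]
    rw [← h1]
    show _ ↔ S p K A (fun k => (Fin.cons (x 0) (b i) : Fin (n + 1) → K)
      (Fin.cast (Nat.add_comm 1 n) k))
    rw [fh1_append]
  let E : Fin M × Fin M → Finset (Fin N × Fin N) := fun jj =>
    Finset.univ.filter (fun e => ∃ x, x ∈ (P e.1 jj.1).set A ∧ x ∈ (P e.2 jj.2).set A)
  have hle : ({f : Fin 2 → Fin N | ∃ x : Fin 1 → K, ∀ i,
      S p K A (Fin.append x (b (f i)))}.ncard : ℝ) ≤ ∑ jj : Fin M × Fin M, ((E jj).card : ℝ) := by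
    have h2 : {f : Fin 2 → Fin N | ∃ x : Fin 1 → K, ∀ i, S p K A (Fin.append x (b (f i)))}.ncard ≤
        ∑ jj : Fin M × Fin M, (E jj).card := by
      have h3 : {f : Fin 2 → Fin N | ∃ x : Fin 1 → K, ∀ i,
          S p K A (Fin.append x (b (f i)))}.ncard =
          ((fun f : Fin 2 → Fin N => (f 0, f 1)) '' {f : Fin 2 → Fin N | ∃ x : Fin 1 → K, ∀ i,
          S p K A (Fin.append x (b (f i)))}).ncard := by
        rw [Set.ncard_image_of_injective]
        intro f g hfg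
        have h4 : f 0 = g 0 := congrArg Prod.fst hfg
        have h5 : f 1 = g 1 := congrArg Prod.snd hfg
        funext i
        fin_cases i
        · exact h4
        · exact h5
      rw [h3]
      refine le_trans ?_ (Finset.card_biUnion_le (s := Finset.univ) (t := E))
      rw [← Set.ncard_coe_finset]
      refine Set.ncard_le_ncard ?_ (Set.toFinite _)
      rintro e ⟨f, ⟨x, hx⟩, rfl⟩
      obtain ⟨j, hj⟩ := (hmem (f 0) x).mp (hx 0)
      obtain ⟨j', hj'⟩ := (hmem (f 1) x).mp (hx 1)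
      rw [Finset.mem_coe, Finset.mem_biUnion]
      exact ⟨(j, j'), Finset.mem_univ _, Finset.mem_filter.mpr ⟨Finset.mem_univ _, x 0, hj, hj'⟩⟩
    exact_mod_cast h2
  have hNR : (0 : ℝ) < (N : ℝ) := by exact_mod_cast hN
  obtain ⟨jj, hjj⟩ : ∃ jj : Fin M × Fin M,
      α / ((M : ℝ) * (M : ℝ) + 1) * (N : ℝ) * (N : ℝ) ≤ ((E jj).card : ℝ) := by
    by_contra hno
    push Not at hno
    have h6 : ∑ jj : Fin M × Fin M, ((E jj).card : ℝ) ≤
        ∑ _jj : Fin M × Fin M, α / ((M : ℝ) * (M : ℝ) + 1) * (N : ℝ) * (N : ℝ) :=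
      Finset.sum_le_sum (fun jj _ => (hno jj).le)
    rw [Finset.sum_const, Finset.card_univ, Fintype.card_prod, Fintype.card_fin,
      nsmul_eq_mul] at h6
    have h7 : α * (N : ℝ) ^ 2 ≤ ((M * M : ℕ) : ℝ) *
        (α / ((M : ℝ) * (M : ℝ) + 1) * (N : ℝ) * (N : ℝ)) := le_trans hcon (le_trans hle h6)
    have h8 : ((M * M : ℕ) : ℝ) * (α / ((M : ℝ) * (M : ℝ) + 1) * (N : ℝ) * (N : ℝ)) =
        α * (N : ℝ) ^ 2 * (((M : ℝ) * (M : ℝ)) / ((M : ℝ) * (M : ℝ) + 1)) := by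
      push_cast
      ring
    rw [h8] at h7
    have h9 : ((M : ℝ) * (M : ℝ)) / ((M : ℝ) * (M : ℝ) + 1) < 1 := by
      rw [div_lt_one hMR]
      linarith
    have h10 : 0 < α * (N : ℝ) ^ 2 := by positivity
    have h11 := mul_lt_mul_of_pos_left h9 h10
    linarith
  have hα' : 0 < α / ((M : ℝ) * (M : ℝ) + 1) := div_pos hα hMR
  obtain ⟨y, hy⟩ := hBip p K A M m N N (fun i => P i jj.1) (fun i => P i jj.2) (E jj)
    (α / ((M : ℝ) * (M : ℝ) + 1)) hm hα' (fun i => hPt i jj.1) (fun i => hPt i jj.2)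
    (fun e he => (Finset.mem_filter.mp he).2) hjj
  refine ⟨fun _ => y, ?_⟩
  have key : ∀ j : Fin M, α / ((M : ℝ) * (M : ℝ) + 1) * (N : ℝ) ≤
      (C : ℝ) * ({i : Fin N | y ∈ (P i j).set A}.ncard : ℝ) →
      α / (((M : ℝ) * (M : ℝ) + 1) * (C : ℝ)) * (N : ℝ) ≤
      ({i : Fin N | S p K A (Fin.append (fun _ : Fin 1 => y) (b i))}.ncard : ℝ) := by
    intro j h12
    have h13 : ({i : Fin N | y ∈ (P i j).set A}.ncard : ℝ) ≤
        ({i : Fin N | S p K A (Fin.append (fun _ : Fin 1 => y) (b i))}.ncard : ℝ) := by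
      have h14 : {i : Fin N | y ∈ (P i j).set A}.ncard ≤
          {i : Fin N | S p K A (Fin.append (fun _ : Fin 1 => y) (b i))}.ncard := by
        refine Set.ncard_le_ncard ?_ (Set.toFinite _)
        intro i hi
        exact (hmem i (fun _ => y)).mpr ⟨j, hi⟩
      exact_mod_cast h14
    refine le_trans ?_ h13
    have h15 : α / (((M : ℝ) * (M : ℝ) + 1) * (C : ℝ)) * (N : ℝ) =
        (α / ((M : ℝ) * (M : ℝ) + 1) * (N : ℝ)) / (C : ℝ) := by
      field_simp
    rw [h15, div_le_iff₀ hCR]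
    linarith
  rcases hy with h | h
  · exact key jj.1 h
  · exact key jj.2 h

end Pool.Agent.FHQ.H69
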