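import Pool.Agent.FHQ.StmtsG

/-!
# Squad FHQ, row LOW (helper69): low pieces
-/

open scoped BigOperators

noncomputable section

namespace Pool.Agent.FHQ.H69

open Pool.Agent.FHQ

theorem low (hDlg : DlgStmt) (hRes : ResStmt) : LowStmt := by
  classical
  intro p _ K _ A m a P S hm hS
  obtain ⟨f, hf⟩ := hDlg p m hm
  have hneg := (hRes p K A.toAcF0).2.2.1
  have h1 : ∀ j : Fin a, ∃ (x : ZMod p) (g : ℤ), j ∈ S → (x ≠ 0 ∧ ∀ q : ℕ, 1 ≤ q →
      ∀ u : ZMod p, u ≠ 0 → (P j).X (x * u ^ m) (g - q * m)) := by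
    intro j
    by_cases hj : j ∈ S
    · obtain ⟨x, g, h1, h2⟩ := hS j hj
      exact ⟨x, g, fun _ => ⟨h1, h2⟩⟩
    · exact ⟨0, 0, fun h => absurd h hj⟩
  choose aa gg hag using h1
  let col : Fin a → Fin m × Fin m := fun j =>
    (f (aa j), ⟨(gg j % (m : ℤ)).toNat, by
      have h2 : gg j % (m : ℤ) < m := Int.emod_lt_of_pos _ (by exact_mod_cast hm)
      have h3 : 0 ≤ gg j % (m : ℤ) := Int.emod_nonneg _ (by exact_mod_cast hm.ne')
      omega⟩)
  haveI : Nonempty (Fin m × Fin m) := ⟨(⟨0, hm⟩, ⟨0, hm⟩)⟩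
  obtain ⟨c, -, hc⟩ := Finset.exists_max_image (Finset.univ : Finset (Fin m × Fin m))
    (fun c => (S.filter (fun j => col j = c)).card) Finset.univ_nonempty
  have hcard : S.card ≤ m * m * (S.filter (fun j => col j = c)).card := by
    have h2 : S.card = ∑ c' : Fin m × Fin m, (S.filter (fun j => col j = c')).card :=
      Finset.card_eq_sum_card_fiberwise (fun j _ => Finset.mem_coe.mpr (Finset.mem_univ (col j)))
    rw [h2]
    calc ∑ c' : Fin m × Fin m, (S.filter (fun j => col j = c')).card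
        ≤ ∑ _c' : Fin m × Fin m, (S.filter (fun j => col j = c)).card :=
          Finset.sum_le_sum (fun c' hc' => hc c' hc')
      _ = m * m * (S.filter (fun j => col j = c)).card := by
          rw [Finset.sum_const, Finset.card_univ, Fintype.card_prod, Fintype.card_fin, smul_eq_mul]
  rcases (S.filter (fun j => col j = c)).eq_empty_or_nonempty with he | ⟨j0, hj0⟩
  · rw [he] at hcard
    simp only [Finset.card_empty, mul_zero, Nat.le_zero] at hcard
    exact ⟨0, by rw [hcard]; exact Nat.zero_le _⟩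
  · have hj0' := Finset.mem_filter.mp hj0
    let T : ℤ := 1 + ∑ j : Fin a, (|gg j0 - gg j| + |gg j0 - A.v ((P j).c - (P j0).c)|)
    have hT : ∀ j : Fin a, |gg j0 - gg j| + |gg j0 - A.v ((P j).c - (P j0).c)| < T := by
      intro j
      have h3 : |gg j0 - gg j| + |gg j0 - A.v ((P j).c - (P j0).c)| ≤
          ∑ j : Fin a, (|gg j0 - gg j| + |gg j0 - A.v ((P j).c - (P j0).c)|) :=
        Finset.single_le_sum (f := fun j : Fin a =>
          |gg j0 - gg j| + |gg j0 - A.v ((P j).c - (P j0).c)|)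
          (fun i _ => add_nonneg (abs_nonneg _) (abs_nonneg _)) (Finset.mem_univ j)
      show _ < 1 + _
      linarith
    have hT0 : 0 < T := lt_of_le_of_lt (add_nonneg (abs_nonneg _) (abs_nonneg _)) (hT j0)
    have hmT : T ≤ m * T := by
      have h4 : (1 : ℤ) ≤ m := by exact_mod_cast hm
      nlinarith
    obtain ⟨t, ht0, hta, htv⟩ := A.surj (aa j0) (gg j0 - m * T) (hag j0 hj0'.1).1
    refine ⟨(P j0).c + t, le_trans hcard (Nat.mul_le_mul_left _ ?_)⟩
    rw [← Set.ncard_coe_finset]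
    refine Set.ncard_le_ncard ?_ (Set.toFinite _)
    intro j hj
    have hj' := Finset.mem_filter.mp (Finset.mem_coe.mp hj)
    have hTj := hT j
    have hj2 := hag j hj'.1
    show (P j0).c + t ∈ (P j).set A
    have h5 : A.v ((P j0).c + t - (P j).c) = gg j0 - m * T ∧
        A.ac ((P j0).c + t - (P j).c) = aa j0 := by
      by_cases hcc : (P j0).c = (P j).c
      · rw [hcc, add_sub_cancel_left]
        exact ⟨htv, hta⟩
      · have h6 : (P j0).c + t - (P j).c = t + ((P j0).c - (P j).c) := by ring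
        rw [h6]
        have h7 : (P j0).c - (P j).c ≠ 0 := sub_ne_zero.mpr hcc
        have h8 : A.v ((P j0).c - (P j).c) = A.v ((P j).c - (P j0).c) := by
          rw [← (hneg ((P j).c - (P j0).c)).2, neg_sub]
        have h9 : A.v t < A.v ((P j0).c - (P j).c) := by
          rw [htv, h8]
          have h10 := le_abs_self (gg j0 - A.v ((P j).c - (P j0).c))
          have h11 := abs_nonneg (gg j0 - gg j)
          linarith
        obtain ⟨h12, h13⟩ := A.add_lt t ((P j0).c - (P j).c) ht0 h7 h9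
        exact ⟨h12.trans htv, h13.trans hta⟩
    have h14 : (P j0).c + t ≠ (P j).c := by
      intro h
      have h15 := h5.2
      rw [h, sub_self, (A.ac_zero 0).mpr rfl] at h15
      exact (hag j0 hj0'.1).1 h15.symm
    refine Or.inr ⟨h14, ?_⟩
    rw [h5.1, h5.2]
    have hcol : col j = col j0 := hj'.2.trans hj0'.2.symm
    have hcol1 : f (aa j) = f (aa j0) := congrArg Prod.fst hcol
    have hcol2 : (gg j % (m : ℤ)).toNat = (gg j0 % (m : ℤ)).toNat :=
      congrArg Fin.val (congrArg Prod.snd hcol)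
    have hmz : (0 : ℤ) < m := by exact_mod_cast hm
    have hmod : gg j % (m : ℤ) = gg j0 % (m : ℤ) := by
      have h16 : 0 ≤ gg j % (m : ℤ) := Int.emod_nonneg _ hmz.ne'
      have h17 : 0 ≤ gg j0 % (m : ℤ) := Int.emod_nonneg _ hmz.ne'
      omega
    obtain ⟨u, hu0, hu⟩ := hf (aa j) (aa j0) hj2.1 (hag j0 hj0'.1).1 hcol1
    have hdvd : (m : ℤ) ∣ gg j - gg j0 := Int.ModEq.dvd (hmod.symm : gg j0 % (m : ℤ) = gg j % (m : ℤ))
    obtain ⟨s, hs⟩ := hdvd
    have hsT : 1 ≤ s + T := by
      by_contra hlt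
      have h18 : s + T ≤ 0 := by omega
      have h19 : (m : ℤ) * (s + T) ≤ 0 := mul_nonpos_of_nonneg_of_nonpos hmz.le h18
      have h20 := le_abs_self (gg j0 - gg j)
      have h21 := abs_nonneg (gg j0 - A.v ((P j).c - (P j0).c))
      have h22 : (m : ℤ) * (s + T) = (gg j - gg j0) + m * T := by rw [hs]; ring
      linarith
    have h23 := hj2.2 (s + T).toNat (by omega) u hu0
    have h24 : (((s + T).toNat : ℕ) : ℤ) = s + T := Int.toNat_of_nonneg (by omega)
    rw [h24, ← hu] at h23
    have h25 : gg j0 - m * T = gg j - (s + T) * m := by linarith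
    rw [h25]
    exact h23

end Pool.Agent.FHQ.H69
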