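import Pool.Agent.FHQ.StmtsU

/-!
# Squad FHQ, row XT: extension of a partial isomorphism, with a positive proportion of values
-/

set_option autoImplicit false

open scoped BigOperators

noncomputable section

namespace Pool.Agent.FHQ.H69

open Polynomial
open Pool.Agent.FHQ

theorem ci_countable {H E : Type} [Countable H] [Countable E] : Countable (CI H E) := by
  let g : CI H E → (H × H) ⊕ ((H × H) ⊕ E) := fun c => match c with
    | CI.add a b => Sum.inl (a, b)
    | CI.mul a b => Sum.inr (Sum.inl (a, b))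
    | CI.con e => Sum.inr (Sum.inr e)
  have hg : Function.Injective g := by
    intro c c' h
    cases c <;> cases c' <;> simp_all [g]
  exact hg.countable

theorem xt (h1 : Xt1Stmt) (h2 : Xt2Stmt) (hS : SatStmt) (hP : PixStmt) (hB : BasStmt) :
    XtStmt := by
  classical
  intro p _ U hU hp K1 K2 θ hPI x hx
  obtain ⟨-, -, -, hfix, -, -, -, heq⟩ := hB p U hp
  have hPx : Ph p U (emb p U x) = emb p U x := (hfix _).2 ⟨x, rfl⟩
  obtain ⟨hcnt, -, -, -, hxH, hEH, -⟩ := hP p U hp K1 K2 θ hPI (emb p U x) hPx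
  -- representatives of the constants
  have hρ : ∀ e : ↥(K1 ⊓ fixs (Ph p U)), ∃ y : ∀ i, ZMod (p i),
      emb p U y = ((θ ⟨(e : UF p U), e.2.1⟩ : K2) : UF p U) := by
    intro e
    rw [← hfix]
    obtain ⟨h, hst⟩ := hPI.st ⟨(e : UF p U), e.2.1⟩
    rw [← hst]
    have he : Ph p U (e : UF p U) = (e : UF p U) := e.2.2
    congr 2
    exact Subtype.ext he
  choose ρ hρ using hρ
  -- the enumeration of the conditions
  have hH : Countable (hhx (Ph p U) K1 (emb p U x)) := by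
    have : ((hhx (Ph p U) K1 (emb p U x) : Subfield (UF p U)) : Set (UF p U)).Countable :=
      hcnt.mono fun a ha => ha.1
    exact this.to_subtype
  have hE : Countable ↥(K1 ⊓ fixs (Ph p U)) := by
    have : ((K1 ⊓ fixs (Ph p U) : Subfield (UF p U)) : Set (UF p U)).Countable :=
      hPI.cnt.mono fun a ha => ha.1
    exact this.to_subtype
  have hC : Countable (CI (hhx (Ph p U) K1 (emb p U x)) (↥(K1 ⊓ fixs (Ph p U)))) := ci_countable
  have hN : Nonempty (CI (hhx (Ph p U) K1 (emb p U x)) (↥(K1 ⊓ fixs (Ph p U)))) :=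
    ⟨CI.con 0⟩
  obtain ⟨e, he⟩ := exists_surjective_nat
    (CI (hhx (Ph p U) K1 (emb p U x)) (↥(K1 ⊓ fixs (Ph p U))))
  refine ⟨fun r i => {x' : ZMod (p i) |
    ∃ z : hhx (Ph p U) K1 (emb p U x) → ZMod (p i), z ⟨emb p U x, hxH⟩ = x' ∧
      ∀ C ∈ (List.range r).map e,
        CO p (hhx (Ph p U) K1 (emb p U x)) (K1 ⊓ fixs (Ph p U)) hEH ρ i z C}, ?_, ?_, ?_⟩
  · intro r
    exact h1 p U hp K1 K2 θ hPI (emb p U x) hPx hx hxH hEH ρ hρ ((List.range r).map e)
  · intro r i x' hx'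
    obtain ⟨z, hz, hz'⟩ := hx'
    refine ⟨z, hz, fun C hC => hz' C ?_⟩
    rw [List.mem_map] at hC ⊢
    obtain ⟨j, hj, hj'⟩ := hC
    rw [List.mem_range] at hj
    exact ⟨j, List.mem_range.2 (Nat.lt_succ_of_lt hj), hj'⟩
  · intro x' hx'
    obtain ⟨z, hz⟩ := hS U hU (fun i => hhx (Ph p U) K1 (emb p U x) → ZMod (p i))
      (fun j i z => z ⟨emb p U x, hxH⟩ = x' i ∧
        CO p (hhx (Ph p U) K1 (emb p U x)) (K1 ⊓ fixs (Ph p U)) hEH ρ i z (e j)) (by
        intro k
        refine (hx' (k + 1)).mono fun i hi => ?_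
        obtain ⟨z, hz, hz'⟩ := hi
        refine ⟨z, fun j hj => ⟨hz, hz' _ ?_⟩⟩
        exact List.mem_map.2 ⟨j, List.mem_range.2 (Nat.lt_succ_of_le hj), rfl⟩)
    obtain ⟨K1', K2', θ', hPI', hext, hX, hX'⟩ := h2 p U hp K1 K2 θ hPI (emb p U x) hPx hxH hEH
      ρ hρ z (by
        intro C
        obtain ⟨j, rfl⟩ := he C
        exact (hz j).mono fun i hi => hi.2)
    refine ⟨K1', K2', θ', hPI', hext, hX, ?_⟩
    rw [hX', heq]
    exact (hz 0).mono fun i hi => hi.1

end Pool.Agent.FHQ.H69
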