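import Pool.Agent.FHQ.StmtsP

/-!
# Squad FHQ, row PER: sets definable in `(ℤ, +, <)` are periodic up to finitely many points
-/

set_option autoImplicit false

open scoped BigOperators

noncomputable section

namespace Pool.Agent.FHQ.H69

open Pool.Agent.FHQ

theorem qf_le {n : ℕ} (a : Fin n → ℤ) (b : ℤ) : QF n (fun x => 0 ≤ ∑ i, a i * x i + b) :=
  ⟨1, fun _ => a, fun _ => b, 1, one_pos, fun _ _ h _ => h 0⟩

theorem qf_not {n : ℕ} {S : (Fin n → ℤ) → Prop} (h : QF n S) : QF n (fun x => ¬ S x) := by
  obtain ⟨r, a, b, M, hM, h⟩ := h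
  exact ⟨r, a, b, M, hM, fun x y h1 h2 => not_congr (h x y h1 h2)⟩

theorem qf_and {n : ℕ} {S T : (Fin n → ℤ) → Prop} (hS : QF n S) (hT : QF n T) :
    QF n (fun x => S x ∧ T x) := by
  obtain ⟨r, a, b, M, hM, h⟩ := hS
  obtain ⟨r', a', b', M', hM', h'⟩ := hT
  refine ⟨r + r', Fin.append a a', Fin.append b b', M * M', Nat.mul_pos hM hM', ?_⟩
  intro x y h1 h2
  refine and_congr (h x y (fun i => ?_) (fun j => ?_)) (h' x y (fun i => ?_) (fun j => ?_))
  · have h3 := h1 (Fin.castAdd r' i)
    simpa only [Fin.append_left] using h3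
  · have h3 := h2 j
    push_cast at h3
    exact h3.of_mul_right _
  · have h3 := h1 (Fin.natAdd r i)
    simpa only [Fin.append_right] using h3
  · have h3 := h2 j
    push_cast at h3
    exact h3.of_mul_left _

theorem qf_of_pd (hQ : PqeStmt) {n : ℕ} {S : (Fin n → ℤ) → Prop} (h : PD n S) : QF n S := by
  induction h with
  | le a b => exact qf_le a b
  | not _ ih => exact qf_not ih
  | and _ _ ih1 ih2 => exact qf_and ih1 ih2
  | ex _ ih => exact hQ _ _ ih

/-- the sign of an affine form changes only in an interval -/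
theorem sign_change (c t : ℤ) (M : ℕ) : ∃ q : ℤ, ∀ z : ℤ,
    ¬ (0 ≤ c * z + t ↔ 0 ≤ c * (z + M) + t) → z ∈ Finset.Ico (q - M) q := by
  have hM : (0 : ℤ) ≤ M := Int.natCast_nonneg M
  rcases lt_trichotomy c 0 with hc | hc | hc
  · have hc' : 0 < -c := by linarith
    have key : ∀ z : ℤ, 0 ≤ c * z + t ↔ z ≤ t / (-c) := by
      intro z
      rw [Int.le_ediv_iff_mul_le hc']
      constructor <;> intro h <;> nlinarith
    refine ⟨t / (-c) + 1, fun z hz => ?_⟩
    rw [key, key] at hz
    rw [Finset.mem_Ico]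
    by_contra hcon
    apply hz
    constructor
    · intro h1
      by_contra h2
      apply hcon
      constructor <;> omega
    · intro h1
      omega
  · subst hc
    exact ⟨0, fun z hz => absurd (by simp) hz⟩
  · have key : ∀ z : ℤ, 0 ≤ c * z + t ↔ -(t / c) ≤ z := by
      intro z
      have h1 : -(t / c) ≤ z ↔ -z ≤ t / c := by constructor <;> intro h <;> linarith
      rw [h1, Int.le_ediv_iff_mul_le hc]
      constructor <;> intro h <;> nlinarith
    refine ⟨-(t / c), fun z hz => ?_⟩
    rw [key, key] at hz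
    rw [Finset.mem_Ico]
    by_contra hcon
    apply hz
    constructor
    · intro h1
      omega
    · intro h1
      by_contra h2
      apply hcon
      constructor <;> omega

theorem per (hQ : PqeStmt) : PerStmt := by
  classical
  intro n S hS
  obtain ⟨r, a, b, M, hM, h⟩ := qf_of_pd hQ hS
  refine ⟨M, r * M, hM, fun x => ?_⟩
  choose q hq using fun i : Fin r =>
    sign_change (a i 0) (∑ j : Fin n, a i j.succ * x j + b i) M
  have hsum : ∀ (i : Fin r) (z : ℤ), ∑ j, a i j * (Fin.cons z x : Fin (n + 1) → ℤ) j + b i =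
      a i 0 * z + (∑ j : Fin n, a i j.succ * x j + b i) := by
    intro i z
    rw [Fin.sum_univ_succ, Fin.cons_zero]
    simp only [Fin.cons_succ]
    ring
  have hsub : {z : ℤ | ¬ (S (Fin.cons z x) ↔ S (Fin.cons (z + M) x))} ⊆
      ((Finset.univ : Finset (Fin r)).biUnion fun i => Finset.Ico (q i - M) (q i) : Finset ℤ) := by
    intro z hz
    rw [Set.mem_setOf_eq] at hz
    rw [Finset.mem_coe, Finset.mem_biUnion]
    by_contra hcon
    apply hz
    apply h
    · intro i
      rw [hsum, hsum]
      by_contra h1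
      exact hcon ⟨i, Finset.mem_univ _, hq i z h1⟩
    · intro j
      refine Fin.cases ?_ (fun j => ?_) j
      · rw [Fin.cons_zero, Fin.cons_zero]
        exact (Int.ModEq.symm (by simp [Int.ModEq]))
      · rw [Fin.cons_succ, Fin.cons_succ]
  refine ⟨(Finset.finite_toSet _).subset hsub, ?_⟩
  refine (Set.ncard_le_ncard hsub (Finset.finite_toSet _)).trans ?_
  rw [Set.ncard_coe_finset]
  refine Finset.card_biUnion_le.trans ?_
  have h1 : ∀ i : Fin r, (Finset.Ico (q i - M) (q i)).card = M := by
    intro i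
    rw [Int.card_Ico]
    have : q i - (q i - M) = (M : ℤ) := by ring
    rw [this, Int.toNat_natCast]
  rw [Finset.sum_congr rfl fun i _ => h1 i, Finset.sum_const, Finset.card_univ, Fintype.card_fin,
    smul_eq_mul]

end Pool.Agent.FHQ.H69
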